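import Mathlib
import Pool.Agent.W5h94.Vamos.Main

/-!
# MP_d1b776_ag, Q1: `-1` is a sum of hermitian squares in the generalized Clifford algebra of the
Vámos polynomial

The proof specializes the eight variables to four pairs of equal ones.  All elements of the
resulting real `*`-algebra are bounded, so that if `-1` was not a sum of squares there would be
(Riesz extension, GNS) symmetric operators `A, B, C, D` with `A + B + C + D = 1` on a nonzero real
inner product space, such that every `T = a A + b B + c C + d D` is a zero of
`H(a - t, b - t, c - t, d - t)`, `H = 4 e₁ e₃ + c² d²`.  Comparing coefficients shows that there are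
no such operators.
-/

set_option autoImplicit false

namespace Pool.Agent.Results.MP_d1b776_ag.MinusOneSOS

open Pool.Agent.W5h94.Vamos

/-- **Q1 holds.** For the Vámos polynomial `h` and `e = (1, ..., 1)`, the element `-1` is a sum of
hermitian squares in `A_e(h) = ℂ⟨z⟩ / J_e(h)`: there are `m ≥ 1` and `b₁, ..., b_m ∈ ℂ⟨z⟩` with
`-1 - ∑ bᵢ* bᵢ ∈ J_e(h)`. -/
theorem result : ∃ m : ℕ, 1 ≤ m ∧ ∃ b : Fin m → FreeAlgebra ℂ (Fin 8),
    -1 - ∑ i, cstar (b i) * b i ∈ cliffordIdeal vamos 1 :=
  main

end Pool.Agent.Results.MP_d1b776_ag.MinusOneSOS
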